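import Pool.Agent.Y19.TP.Stm4

set_option autoImplicit false

/-! # p-adic dynamics of v B(z) over a finite extension -/

namespace Pool.Agent.Y309.TP

open Polynomial Function Pool.Agent.Y19.TP


section abs

variable {F : Type} [NormedField F] [IsUltrametricDist F]

private theorem na' (x y : F) (B : ℝ) (hx : ‖x‖ ≤ B) (hy : ‖y‖ ≤ B) : ‖x + y‖ ≤ B :=
  (IsUltrametricDist.norm_add_le_max x y).trans (max_le hx hy)

private theorem pow_sub_le' (R : ℝ) (hR : 0 ≤ R) (z z' : F) (hz : ‖z‖ ≤ R) (hz' : ‖z'‖ ≤ R)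
    (m : ℕ) : ‖z ^ (m + 1) - z' ^ (m + 1)‖ ≤ R ^ m * ‖z - z'‖ := by
  induction m with
  | zero => simp
  | succ m ih =>
    have e : z ^ (m + 1 + 1) - z' ^ (m + 1 + 1) =
        z * (z ^ (m + 1) - z' ^ (m + 1)) + (z - z') * z' ^ (m + 1) := by ring
    rw [e]
    refine na' _ _ _ ?_ ?_
    · rw [norm_mul]
      calc ‖z‖ * ‖z ^ (m + 1) - z' ^ (m + 1)‖ ≤ R * (R ^ m * ‖z - z'‖) := by gcongr
        _ = R ^ (m + 1) * ‖z - z'‖ := by ring
    · rw [norm_mul, norm_pow, mul_comm]
      gcongr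

private def Bd (r : ℝ) (P : F[X]) (A : ℝ) : Prop := ∀ i, ‖P.coeff i‖ * r ^ i ≤ A

private theorem Bd_mul {r : ℝ} (hr : 0 ≤ r) {P Q : F[X]} {A A' : ℝ} (hA : 0 ≤ A) (hA' : 0 ≤ A')
    (hP : Bd r P A) (hQ : Bd r Q A') : Bd r (P * Q) (A * A') := by
  intro i
  rcases hr.eq_or_lt with hr0 | hr0
  · rw [← hr0]
    rcases Nat.eq_zero_or_pos i with rfl | hi
    · rw [mul_coeff_zero, norm_mul, pow_zero, mul_one]
      have h1 := hP 0
      have h2 := hQ 0
      rw [pow_zero, mul_one] at h1 h2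
      exact mul_le_mul h1 h2 (norm_nonneg _) hA
    · rw [zero_pow hi.ne', mul_zero]
      exact mul_nonneg hA hA'
  · have h1 : ‖(P * Q).coeff i‖ ≤ A * A' / r ^ i := by
      rw [coeff_mul]
      refine IsUltrametricDist.norm_sum_le_of_forall_le_of_nonneg (by positivity) fun x hx => ?_
      rw [le_div_iff₀ (by positivity), norm_mul]
      have h2 : x.1 + x.2 = i := Finset.HasAntidiagonal.mem_antidiagonal.1 hx
      calc ‖P.coeff x.1‖ * ‖Q.coeff x.2‖ * r ^ i
          = (‖P.coeff x.1‖ * r ^ x.1) * (‖Q.coeff x.2‖ * r ^ x.2) := by rw [← h2, pow_add]; ring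
        _ ≤ A * A' := mul_le_mul (hP _) (hQ _) (by positivity) hA
    rwa [le_div_iff₀ (by positivity)] at h1

private theorem Bd_pow {r : ℝ} (hr : 0 ≤ r) {P : F[X]} {A : ℝ} (hA : 0 ≤ A)
    (hP : Bd r P A) (n : ℕ) : Bd r (P ^ n) (A ^ n) := by
  induction n with
  | zero =>
    intro i
    rw [pow_zero, pow_zero, coeff_one]
    rcases Nat.eq_zero_or_pos i with rfl | hi
    · simp
    · rw [if_neg hi.ne', norm_zero, zero_mul]
      exact zero_le_one
  | succ n ih =>
    rw [pow_succ, pow_succ]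
    exact Bd_mul hr (pow_nonneg hA n) hA ih hP

/-- the abstract form of the fixed point argument -/
private theorem dyn [CompleteSpace F] (B : F[X]) (C0 u : F) (m e : ℕ) (r P : ℝ) (hm : 1 ≤ m)
    (hB0 : B.eval u = 0) (hB' : derivative B = C C0 * X ^ (m - 1) * (1 - X) ^ e)
    (hk : ∀ k : ℕ, 1 ≤ k → (1 : ℝ) ≤ k * ‖(k : F)‖) (hu : ‖u‖ = r) (hr : 1 < r) (hP : 2 ≤ P)
    (hL : P < ‖C0‖ * r ^ (m + e)) (n : ℕ) :
    ∃ v : F, 1 < ‖v‖ ∧ (fun z : F => v * B.eval z)^[n + 1] v = 0 ∧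
      ∀ i ≤ n, (fun z : F => v * B.eval z)^[i] v ≠ 0 := by
  classical
  have hr0 : 0 < r := by linarith
  obtain ⟨L, hLd⟩ : ∃ L : ℝ, L = ‖C0‖ * r ^ (m + e) := ⟨_, rfl⟩
  rw [← hLd] at hL
  have hL0 : 0 < L := by linarith
  obtain ⟨g, hg⟩ : ∃ g : ℝ, g = ‖C0‖ * r ^ (m - 1) * r ^ e := ⟨_, rfl⟩
  have hgr : g * r = L := by
    rw [hg, hLd]
    have h1 : r ^ (m + e) = r ^ (m - 1) * r ^ e * r := by
      rw [← pow_add, ← pow_succ]
      congr 1
      omega
    rw [h1]
    ring
  have hg0 : 0 < g := by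
    by_contra hneg
    have := mul_nonpos_of_nonpos_of_nonneg (not_lt.1 hneg) hr0.le
    linarith
  obtain ⟨ρ, hρ⟩ : ∃ ρ : ℝ, ρ = g⁻¹ := ⟨_, rfl⟩
  have hρ0 : 0 < ρ := by rw [hρ]; positivity
  have hρg : ρ * g = 1 := by rw [hρ]; exact inv_mul_cancel₀ hg0.ne'
  have hρL : ρ * L = r := by rw [← hgr, ← mul_assoc, hρg, one_mul]
  have hρr : ρ < r := by nlinarith
  obtain ⟨θ, hθ⟩ : ∃ θ : ℝ, θ = P / L := ⟨_, rfl⟩
  have hθ0 : 0 < θ := by rw [hθ]; positivity
  have hθ1 : θ < 1 := by rw [hθ, div_lt_one hL0]; exact hL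
  have h1u : ‖1 - u‖ = r := by
    have h1 : ‖(1 : F)‖ ≠ ‖-u‖ := by rw [norm_one, norm_neg, hu]; exact hr.ne
    rw [sub_eq_add_neg, IsUltrametricDist.norm_add_eq_max_of_norm_ne_norm h1, norm_one, norm_neg,
      hu]
    exact max_eq_right hr.le
  -- Taylor expansion at `u`
  obtain ⟨Q, hQ⟩ : ∃ Q : F[X], Q = B.comp (X + C u) := ⟨_, rfl⟩
  have hQe : ∀ w : F, Q.eval w = B.eval (w + u) := by
    intro w
    rw [hQ, eval_comp]
    simp
  have hQ0 : Q.coeff 0 = 0 := by
    rw [coeff_zero_eq_eval_zero, hQe, zero_add, hB0]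
  have hQ' : derivative Q = C C0 * (X + C u) ^ (m - 1) * (C (1 - u) - X) ^ e := by
    rw [hQ, derivative_comp, hB']
    simp only [derivative_add, derivative_X, derivative_C, add_zero, one_mul, mul_comp, C_comp,
      pow_comp, X_comp, sub_comp, one_comp, C_sub, C_1]
    congr 2
    ring
  have hBd : Bd r (derivative Q) g := by
    have h1 : Bd r (C C0 : F[X]) ‖C0‖ := by
      intro i
      rcases Nat.eq_zero_or_pos i with rfl | hi
      · simp
      · rw [coeff_C, if_neg hi.ne', norm_zero, zero_mul]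
        exact norm_nonneg _
    have h2 : Bd r (X + C u : F[X]) r := by
      intro i
      rcases i with _ | _ | i
      · simp [hu]
      · simp
      · simp [coeff_X, coeff_C]
        exact hr0.le
    have h3 : Bd r (C (1 - u) - X : F[X]) r := by
      intro i
      rcases i with _ | _ | i
      · simp only [coeff_sub, coeff_C_zero, coeff_X_zero, sub_zero, pow_zero, mul_one]
        exact h1u.le
      · have e1 : (C (1 - u) - X : F[X]).coeff (0 + 1) = -1 := by
          rw [coeff_sub, coeff_C_succ, coeff_X_one, zero_sub]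
        rw [e1]
        simp
      · have e1 : (C (1 - u) - X : F[X]).coeff (i + 1 + 1) = 0 := by
          rw [coeff_sub, coeff_C_succ, coeff_X_of_ne_one (by omega), sub_zero]
        rw [e1, norm_zero, zero_mul]
        exact hr0.le
    rw [hQ', hg]
    exact Bd_mul hr0.le (by positivity) (by positivity)
      (Bd_mul hr0.le (norm_nonneg _) (by positivity) h1 (Bd_pow hr0.le hr0.le h2 _))
      (Bd_pow hr0.le hr0.le h3 _)
  obtain ⟨R, hR⟩ : ∃ R : F[X], R = Q.divX := ⟨_, rfl⟩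
  have hRc : ∀ j, R.coeff j = Q.coeff (j + 1) := fun j => by rw [hR, coeff_divX]
  have hRe : ∀ z : F, B.eval z = (z - u) * R.eval (z - u) := by
    intro z
    have h1 : Q.eval (z - u) = B.eval z := by rw [hQe, sub_add_cancel]
    rw [← h1]
    conv_lhs => rw [← divX_mul_X_add Q, hQ0]
    rw [← hR]
    simp [mul_comm]
  have hR0 : ‖R.coeff 0‖ = g := by
    have h1 : (derivative Q).coeff 0 = R.coeff 0 := by
      rw [coeff_derivative, hRc]
      simp
    rw [← h1, hQ', hg]
    rw [coeff_zero_eq_eval_zero]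
    simp only [eval_mul, eval_C, eval_pow, eval_add, eval_X, eval_sub, zero_add, sub_zero]
    rw [norm_mul, norm_mul, norm_pow, norm_pow, hu, h1u]
  have hRj : ∀ j : ℕ, ‖R.coeff j‖ * r ^ j ≤ g * (j + 1) := by
    intro j
    have h1 := hBd j
    rw [coeff_derivative, ← hRc, norm_mul] at h1
    have h2 := hk (j + 1) (by omega)
    push_cast at h2
    have h3 : 0 ≤ ‖R.coeff j‖ * r ^ j := by positivity
    calc ‖R.coeff j‖ * r ^ j ≤ (‖R.coeff j‖ * r ^ j) * (((j : ℝ) + 1) * ‖((j : F) + 1)‖) :=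
          le_mul_of_one_le_right h3 h2
      _ = (‖R.coeff j‖ * ‖((j : F) + 1)‖ * r ^ j) * (j + 1) := by ring
      _ ≤ g * (j + 1) := by gcongr
  have hPj : ∀ j : ℕ, ((j : ℝ) + 1 + 1) ≤ P ^ (j + 1) := by
    intro j
    have h1 : ((j : ℝ) + 1 + 1) ≤ 2 ^ (j + 1) := by
      have : j + 1 + 1 ≤ 2 ^ (j + 1) := Nat.lt_two_pow_self (n := j + 1)
      exact_mod_cast this
    exact h1.trans (pow_le_pow_left₀ (by norm_num) hP _)
  have hRρ : ∀ j : ℕ, ‖R.coeff (j + 1)‖ * ρ ^ (j + 1) ≤ θ * g := by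
    intro j
    have h1 := hRj (j + 1)
    have h2 : ρ = r / L := by rw [← hρL]; field_simp
    rw [h2, div_pow]
    push_cast at h1
    have h3 : θ ^ (j + 1) ≤ θ := by
      rw [pow_succ]
      exact mul_le_of_le_one_left hθ0.le (pow_le_one₀ hθ0.le hθ1.le)
    calc ‖R.coeff (j + 1)‖ * (r ^ (j + 1) / L ^ (j + 1))
        = (‖R.coeff (j + 1)‖ * r ^ (j + 1)) / L ^ (j + 1) := by ring
      _ ≤ (g * ((j : ℝ) + 1 + 1)) / L ^ (j + 1) := by gcongr
      _ ≤ (g * P ^ (j + 1)) / L ^ (j + 1) := by gcongr; exact hPj j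
      _ = g * θ ^ (j + 1) := by rw [hθ, div_pow]; ring
      _ ≤ g * θ := by gcongr
      _ = θ * g := mul_comm _ _
  have hRn : ∀ w : F, ‖w‖ ≤ ρ → ‖R.eval w‖ = g := by
    intro w hw
    have h1 : ‖R.eval w - R.coeff 0‖ ≤ θ * g := by
      rw [eval_eq_sum_range, Finset.sum_range_succ', pow_zero, mul_one, add_sub_cancel_right]
      refine IsUltrametricDist.norm_sum_le_of_forall_le_of_nonneg (by positivity) fun j _ => ?_
      rw [norm_mul, norm_pow]
      exact (mul_le_mul_of_nonneg_left (pow_le_pow_left₀ (norm_nonneg w) hw _)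
        (norm_nonneg _)).trans (hRρ j)
    have h2 : ‖R.coeff 0‖ ≠ ‖R.eval w - R.coeff 0‖ := by
      rw [hR0]
      have : θ * g < g := by nlinarith
      exact (h1.trans_lt this).ne'
    have h3 : R.eval w = R.coeff 0 + (R.eval w - R.coeff 0) := by ring
    rw [h3, IsUltrametricDist.norm_add_eq_max_of_norm_ne_norm h2, hR0]
    exact max_eq_left (h1.trans (by nlinarith))
  have hRl : ∀ w w' : F, ‖w‖ ≤ ρ → ‖w'‖ ≤ ρ →
      ‖R.eval w - R.eval w'‖ ≤ θ * g ^ 2 * ‖w - w'‖ := by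
    intro w w' hw hw'
    rw [eval_eq_sum_range, eval_eq_sum_range, ← Finset.sum_sub_distrib, Finset.sum_range_succ',
      pow_zero, pow_zero, sub_self, add_zero]
    refine IsUltrametricDist.norm_sum_le_of_forall_le_of_nonneg (by positivity) fun j _ => ?_
    rw [← mul_sub, norm_mul]
    calc ‖R.coeff (j + 1)‖ * ‖w ^ (j + 1) - w' ^ (j + 1)‖
        ≤ ‖R.coeff (j + 1)‖ * (ρ ^ j * ‖w - w'‖) := by
          gcongr
          exact pow_sub_le' ρ hρ0.le w w' hw hw' j
      _ = (‖R.coeff (j + 1)‖ * ρ ^ (j + 1)) * g * ‖w - w'‖ := by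
          have : ρ ^ j = ρ ^ (j + 1) * g := by rw [pow_succ, mul_assoc, hρg, mul_one]
          rw [this]; ring
      _ ≤ (θ * g) * g * ‖w - w'‖ := mul_le_mul_of_nonneg_right
          (mul_le_mul_of_nonneg_right (hRρ j) hg0.le) (norm_nonneg _)
      _ = θ * g ^ 2 * ‖w - w'‖ := by ring
  have hnormD : ∀ z : F, ‖z - u‖ ≤ ρ → ‖z‖ = r := by
    intro z hz
    have h1 : z = u + (z - u) := by ring
    have h2 : ‖u‖ ≠ ‖z - u‖ := by rw [hu]; exact (hz.trans_lt hρr).ne'
    rw [h1, IsUltrametricDist.norm_add_eq_max_of_norm_ne_norm h2, hu]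
    exact max_eq_left (hz.trans hρr.le)
  -- the map
  obtain ⟨T, hT⟩ : ∃ T : F → F → F → F, T = fun a b c => u + b / (a * R.eval (c - u)) := ⟨_, rfl⟩
  have hTm : ∀ a b c : F, ‖a - u‖ ≤ ρ → ‖b - u‖ ≤ ρ → ‖c - u‖ ≤ ρ → ‖T a b c - u‖ ≤ ρ := by
    intro a b c ha hb hc
    rw [hT]
    simp only [add_sub_cancel_left]
    rw [norm_div, norm_mul, hnormD a ha, hnormD b hb, hRn _ hc, hρ]
    apply le_of_eq
    field_simp
  have hTl : ∀ a b c a' b' c' : F, ‖a - u‖ ≤ ρ → ‖b - u‖ ≤ ρ → ‖c - u‖ ≤ ρ →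
      ‖a' - u‖ ≤ ρ → ‖b' - u‖ ≤ ρ → ‖c' - u‖ ≤ ρ → ∀ M : ℝ, ‖a - a'‖ ≤ M → ‖b - b'‖ ≤ M →
      ‖c - c'‖ ≤ M → ‖T a b c - T a' b' c'‖ ≤ θ * M := by
    intro a b c a' b' c' ha hb hc ha' hb' hc' M h1 h2 h3
    have hM0 : 0 ≤ M := (norm_nonneg _).trans h1
    obtain ⟨E, hE⟩ : ∃ E : F, E = R.eval (c - u) := ⟨_, rfl⟩
    obtain ⟨E', hE'⟩ : ∃ E' : F, E' = R.eval (c' - u) := ⟨_, rfl⟩
    have hEn : ‖E‖ = g := by rw [hE]; exact hRn _ hc
    have hEn' : ‖E'‖ = g := by rw [hE']; exact hRn _ hc'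
    have hne : ∀ x : F, ∀ t : ℝ, 0 < t → ‖x‖ = t → x ≠ 0 := by
      intro x t ht hx h0
      rw [h0, norm_zero] at hx
      linarith
    have ha0 := hne a r hr0 (hnormD a ha)
    have ha0' := hne a' r hr0 (hnormD a' ha')
    have hE0 := hne E g hg0 hEn
    have hE0' := hne E' g hg0 hEn'
    have hEE : ‖E' - E‖ ≤ θ * g ^ 2 * M := by
      rw [hE, hE']
      refine (hRl _ _ hc' hc).trans ?_
      have h4 : c' - u - (c - u) = c' - c := by ring
      rw [h4, norm_sub_rev]
      gcongr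
    have hθL : 1 ≤ θ * L := by
      rw [hθ]
      have : P / L * L = P := by field_simp
      rw [this]
      linarith
    have hterm : r * g * M ≤ r ^ 2 * g ^ 2 * (θ * M) := by
      have h5 : r ^ 2 * g ^ 2 * (θ * M) = r * g * M * (θ * L) := by rw [← hgr]; ring
      rw [h5]
      exact le_mul_of_one_le_right (by positivity) hθL
    have hN : ‖(b - b') * a' * E' + b' * (a' - a) * E' + b' * a * (E' - E)‖ ≤
        r ^ 2 * g ^ 2 * (θ * M) := by
      refine na' _ _ _ (na' _ _ _ ?_ ?_) ?_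
      · rw [norm_mul, norm_mul, hnormD a' ha', hEn']
        calc ‖b - b'‖ * r * g ≤ M * r * g := by gcongr
          _ = r * g * M := by ring
          _ ≤ _ := hterm
      · rw [norm_mul, norm_mul, hnormD b' hb', hEn', norm_sub_rev]
        calc r * ‖a - a'‖ * g ≤ r * M * g := by gcongr
          _ = r * g * M := by ring
          _ ≤ _ := hterm
      · rw [norm_mul, norm_mul, hnormD b' hb', hnormD a ha]
        calc r * r * ‖E' - E‖ ≤ r * r * (θ * g ^ 2 * M) := by gcongr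
          _ = r ^ 2 * g ^ 2 * (θ * M) := by ring
    have e : T a b c - T a' b' c' =
        ((b - b') * a' * E' + b' * (a' - a) * E' + b' * a * (E' - E)) / (a * a' * E * E') := by
      rw [hT]
      simp only []
      rw [← hE, ← hE']
      field_simp
      ring
    rw [e, norm_div, norm_mul, norm_mul, norm_mul, hnormD a ha, hnormD a' ha', hEn, hEn',
      div_le_iff₀ (by positivity)]
    calc ‖(b - b') * a' * E' + b' * (a' - a) * E' + b' * a * (E' - E)‖
        ≤ r ^ 2 * g ^ 2 * (θ * M) := hN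
      _ = θ * M * (r * r * g * g) := by ring
  have hcompl : CompleteSpace (Metric.closedBall u ρ) :=
    Metric.isClosed_closedBall.completeSpace_coe
  have huD : u ∈ Metric.closedBall u ρ := Metric.mem_closedBall_self hρ0.le
  have hne : Nonempty (Fin n → Metric.closedBall u ρ) := ⟨fun _ => ⟨u, huD⟩⟩
  let ext : (Fin n → Metric.closedBall u ρ) → ℕ → F :=
    fun z i => if h : i < n then (z ⟨i, h⟩ : F) else u
  have hextD : ∀ z i, ‖ext z i - u‖ ≤ ρ := by
    intro z i
    by_cases h : i < n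
    · simp only [ext, dif_pos h]
      exact mem_closedBall_iff_norm.1 (z ⟨i, h⟩).2
    · simp only [ext, dif_neg h, sub_self, norm_zero]
      exact hρ0.le
  have hextd : ∀ z z' i, ‖ext z i - ext z' i‖ ≤ dist z z' := by
    intro z z' i
    by_cases h : i < n
    · simp only [ext, dif_pos h]
      have h1 := dist_le_pi_dist z z' ⟨i, h⟩
      rw [Subtype.dist_eq, dist_eq_norm] at h1
      exact h1
    · simp only [ext, dif_neg h, sub_self, norm_zero]
      exact dist_nonneg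
  let Ψ : (Fin n → Metric.closedBall u ρ) → (Fin n → Metric.closedBall u ρ) :=
    fun z i => ⟨T (ext z 0) (ext z (i + 1)) (ext z i), mem_closedBall_iff_norm.2
      (hTm _ _ _ (hextD z _) (hextD z _) (hextD z _))⟩
  have hcontr : ContractingWith ⟨θ, hθ0.le⟩ Ψ := by
    refine ⟨?_, LipschitzWith.of_dist_le_mul fun z z' => ?_⟩
    · exact_mod_cast hθ1
    · rw [dist_pi_le_iff (by positivity)]
      intro i
      rw [Subtype.dist_eq, dist_eq_norm]
      exact hTl _ _ _ _ _ _ (hextD z _) (hextD z _) (hextD z _) (hextD z' _) (hextD z' _)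
        (hextD z' _) _ (hextd z z' _) (hextd z z' _) (hextd z z' _)
  obtain ⟨z, hz⟩ : ∃ z, Ψ z = z := ⟨_, hcontr.fixedPoint_isFixedPt⟩
  obtain ⟨v, hv⟩ : ∃ v : F, v = ext z 0 := ⟨_, rfl⟩
  have hvn : ‖v‖ = r := by rw [hv]; exact hnormD _ (hextD z 0)
  have hne0 : ∀ x : F, ‖x‖ = r → x ≠ 0 := by
    intro x hx h0
    rw [h0, norm_zero] at hx
    linarith
  have hstep : ∀ i, i < n → v * B.eval (ext z i) = ext z (i + 1) := by
    intro i hi
    have h1 : ((Ψ z) ⟨i, hi⟩ : F) = (z ⟨i, hi⟩ : F) := by rw [hz]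
    have h2 : (z ⟨i, hi⟩ : F) = ext z i := by simp only [ext, dif_pos hi]
    have h3 : T (ext z 0) (ext z (i + 1)) (ext z i) = ext z i := h1.trans h2
    rw [hT] at h3
    simp only [] at h3
    rw [← hv] at h3
    have hv0 := hne0 v hvn
    have hG0 : R.eval (ext z i - u) ≠ 0 := by
      intro h0
      have := hRn _ (hextD z i)
      rw [h0, norm_zero] at this
      linarith
    rw [hRe]
    have h4 : ext z (i + 1) / (v * R.eval (ext z i - u)) = ext z i - u := by
      rw [eq_sub_iff_add_eq, add_comm]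
      exact h3
    rw [div_eq_iff (mul_ne_zero hv0 hG0)] at h4
    rw [h4]
    ring
  have hiter : ∀ i, i ≤ n → (fun z : F => v * B.eval z)^[i] v = ext z i := by
    intro i
    induction i with
    | zero => intro _; exact hv
    | succ i ih =>
      intro hi
      rw [Function.iterate_succ_apply', ih (by omega)]
      exact hstep i (by omega)
  refine ⟨v, by rw [hvn]; exact hr, ?_, ?_⟩
  · rw [Function.iterate_succ_apply', hiter n le_rfl]
    have h1 : ext z n = u := by simp only [ext, dif_neg (lt_irrefl n)]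
    rw [h1]
    show v * B.eval u = 0
    rw [hB0, mul_zero]
  · intro i hi
    rw [hiter i hi]
    exact hne0 _ (hnormD _ (hextD z i))

end abs

private theorem bern_map {K L : Type} [Field K] [Field L] (f : K →+* L) (d m : ℕ) :
    (bern K d m).map f = bern L d m := by
  unfold bern
  rw [Polynomial.map_sum]
  refine Finset.sum_congr rfl fun j _ => ?_
  simp

private theorem one_le_nat_norm (p : ℕ) [Fact p.Prime] (k : ℕ) (hk : 1 ≤ k) :
    (1 : ℝ) ≤ k * ‖(k : ℚ_[p])‖ := by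
  have hk0 : k ≠ 0 := by omega
  have h1 : ‖(k : ℚ_[p])‖ = (p : ℝ) ^ (-(padicValNat p k : ℤ)) := by
    have := Padic.norm_eq_zpow_neg_valuation (p := p) (x := (k : ℚ_[p])) (by exact_mod_cast hk0)
    rw [this, Padic.valuation_natCast]
  have h2 : p ^ padicValNat p k ∣ k := pow_padicValNat_dvd
  have h3 : p ^ padicValNat p k ≤ k := Nat.le_of_dvd hk h2
  have hp0 : (0 : ℝ) < (p : ℝ) ^ padicValNat p k := by
    have : 0 < p := (Fact.out : p.Prime).pos
    positivity
  rw [h1, zpow_neg, zpow_natCast, ← div_eq_mul_inv, one_le_div hp0]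
  exact_mod_cast h3

theorem t_INFKB : BERN → INFKB := by
  classical
  intro hBERN p _ d hpd hnd
  have hp : p.Prime := Fact.out
  obtain ⟨e, he⟩ : ∃ e, e = d % p := ⟨_, rfl⟩
  have he0 : 1 ≤ e := by
    rw [he]
    exact Nat.one_le_iff_ne_zero.2 fun h => hnd (Nat.dvd_of_mod_eq_zero h)
  have hep : e < p := by rw [he]; exact Nat.mod_lt _ hp.pos
  obtain ⟨m, hm⟩ : ∃ m, m = d - d % p := ⟨_, rfl⟩
  have hde : d = m + e := by rw [hm, he]; have := Nat.mod_le d p; omega
  have hpm : p ∣ m := by rw [hm]; exact Nat.dvd_sub_mod d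
  have hm1 : p ≤ m := by
    refine Nat.le_of_dvd ?_ hpm
    omega
  rw [← hm, ← he]
  have hm0 : 1 ≤ m := hp.one_lt.le.trans hm1
  -- norms in `ℚ_p`
  have hchoose : ‖((d.choose m : ℕ) : ℚ_[p])‖ = 1 := by
    rw [Padic.norm_natCast_eq_one_iff, hp.coprime_iff_not_dvd]
    intro hdvd
    have h1 : d.choose m = d.choose e := by
      rw [hde, Nat.choose_symm_add]
    rw [h1] at hdvd
    have h2 := Choose.choose_modEq_choose_mod_mul_choose_div_nat (n := d) (k := e) (p := p)
    rw [← he, Nat.mod_eq_of_lt hep, Nat.choose_self, Nat.div_eq_of_lt hep, Nat.choose_zero_right,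
      mul_one] at h2
    have h3 : 1 ≡ 0 [MOD p] := h2.symm.trans ((Nat.modEq_zero_iff_dvd).2 hdvd)
    have h4 := (Nat.modEq_zero_iff_dvd).1 h3
    exact hp.one_lt.ne' (Nat.dvd_one.1 h4)
  obtain ⟨μ, hμ⟩ : ∃ μ : ℝ, μ = ‖(m : ℚ_[p])‖ := ⟨_, rfl⟩
  have hμ0 : 0 < μ := by
    rw [hμ]
    exact norm_pos_iff.2 (by exact_mod_cast (by omega : m ≠ 0))
  have hμp : μ * p ≤ 1 := by
    have h1 : ‖(m : ℚ_[p])‖ ≤ (p : ℝ) ^ (-1 : ℤ) := by
      have := (Padic.norm_int_le_pow_iff_dvd (p := p) (m : ℤ) 1).2 (by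
        rw [pow_one]; exact_mod_cast hpm)
      simpa using this
    have hp0 : (0 : ℝ) < p := by exact_mod_cast hp.pos
    rw [zpow_neg_one] at h1
    rw [hμ]
    calc ‖(m : ℚ_[p])‖ * p ≤ (p : ℝ)⁻¹ * p := by gcongr
      _ = 1 := inv_mul_cancel₀ hp0.ne'
  have hd1 : ‖(d : ℚ_[p])‖ = 1 := by
    rw [Padic.norm_natCast_eq_one_iff, hp.coprime_iff_not_dvd]
    exact hnd
  have hlead : ‖(((d - 1).choose (m - 1) : ℕ) : ℚ_[p])‖ = μ := by
    have h1 : d * (d - 1).choose (m - 1) = d.choose m * m := by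
      have := Nat.add_one_mul_choose_eq (d - 1) (m - 1)
      have e1 : d - 1 + 1 = d := by omega
      have e2 : m - 1 + 1 = m := by omega
      rwa [e1, e2] at this
    have h2 : (d : ℚ_[p]) * (((d - 1).choose (m - 1) : ℕ) : ℚ_[p]) =
        ((d.choose m : ℕ) : ℚ_[p]) * (m : ℚ_[p]) := by exact_mod_cast h1
    have h3 := congrArg norm h2
    rw [norm_mul, norm_mul, hd1, hchoose, one_mul, one_mul, ← hμ] at h3
    exact h3
  -- the polynomial `H = B / X ^ m` over `ℚ_p`
  obtain ⟨-, -, -, hQdeg, hQm, hQlow, hQlead⟩ := hBERN ℚ_[p] d m hm0 (by omega)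
  obtain ⟨H, hH⟩ : X ^ m ∣ bern ℚ_[p] d m := by
    rw [X_pow_dvd_iff]
    exact hQlow
  have hH0 : H ≠ 0 := by
    rintro rfl
    rw [mul_zero] at hH
    rw [hH, coeff_zero] at hQm
    rw [← hQm, norm_zero] at hchoose
    exact zero_ne_one hchoose
  have hHdeg : H.natDegree = e := by
    have h1 := congrArg natDegree hH
    rw [natDegree_mul (pow_ne_zero _ X_ne_zero) hH0, natDegree_X_pow, hQdeg] at h1
    omega
  have hHc0 : ‖H.coeff 0‖ = 1 := by
    have h1 : (bern ℚ_[p] d m).coeff m = H.coeff 0 := by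
      rw [hH]
      have := coeff_X_pow_mul H m 0
      rwa [zero_add] at this
    rw [← h1, hQm, hchoose]
  have hHl : ‖H.leadingCoeff‖ = μ := by
    have h1 : (bern ℚ_[p] d m).leadingCoeff = H.leadingCoeff := by
      rw [hH, leadingCoeff_mul, leadingCoeff_X_pow, one_mul]
    rw [← h1, hQlead, norm_mul, norm_pow, norm_neg, norm_one, one_pow, one_mul, hlead]
  -- a root of large norm
  let U := PadicAlgCl p
  let HU : U[X] := H.map (algebraMap ℚ_[p] U)
  have hnU : ∀ x : ℚ_[p], ‖algebraMap ℚ_[p] (PadicAlgCl p) x‖ = ‖x‖ := PadicAlgCl.norm_extends p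
  have hsplit : HU.Splits := IsAlgClosed.splits HU
  have hHU0 : HU ≠ 0 := by
    exact (Polynomial.map_ne_zero_iff (algebraMap ℚ_[p] U).injective).2 hH0
  have hcardr : HU.roots.card = e := by
    rw [← hHdeg, ← natDegree_map (algebraMap ℚ_[p] U)]
    exact (hsplit.natDegree_eq_card_roots).symm
  have hprod : μ * ‖HU.roots.prod‖ = 1 := by
    have h1 := hsplit.coeff_zero_eq_leadingCoeff_mul_prod_roots
    have h2 := congrArg norm h1
    rw [norm_mul, norm_mul, norm_pow, norm_neg, norm_one, one_pow, one_mul] at h2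
    have h3 : ‖HU.coeff 0‖ = 1 := by
      show ‖(H.map (algebraMap ℚ_[p] U)).coeff 0‖ = 1
      rw [coeff_map, hnU, hHc0]
    have h4 : ‖HU.leadingCoeff‖ = μ := by
      show ‖(H.map (algebraMap ℚ_[p] U)).leadingCoeff‖ = μ
      rw [leadingCoeff_map, hnU, hHl]
    rw [h3, h4] at h2
    exact h2.symm
  obtain ⟨u, hur, hue⟩ : ∃ u ∈ HU.roots, 1 ≤ μ * ‖u‖ ^ e := by
    have hne : HU.roots.toFinset.Nonempty := by
      rw [Multiset.toFinset_nonempty]
      intro h0
      rw [h0, Multiset.card_zero] at hcardr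
      omega
    obtain ⟨u, hu, hmax⟩ := Finset.exists_max_image HU.roots.toFinset (fun w => ‖w‖) hne
    refine ⟨u, Multiset.mem_toFinset.1 hu, ?_⟩
    have hle : ∀ s : Multiset (PadicAlgCl p), (∀ w ∈ s, ‖w‖ ≤ ‖u‖) →
        ‖s.prod‖ ≤ ‖u‖ ^ s.card := by
      intro s
      induction s using Multiset.induction with
      | empty => intro _; simp
      | cons a s ih =>
        intro h
        rw [Multiset.prod_cons, norm_mul, Multiset.card_cons, pow_succ, mul_comm]
        exact mul_le_mul (ih fun w hw => h w (Multiset.mem_cons_of_mem hw))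
          (h a (Multiset.mem_cons_self a s)) (norm_nonneg _) (by positivity)
    have h1 := hle HU.roots fun w hw => hmax w (Multiset.mem_toFinset.2 hw)
    rw [hcardr] at h1
    rw [← hprod]
    gcongr
  have huroot : HU.eval u = 0 := (mem_roots hHU0).1 hur
  obtain ⟨r, hr⟩ : ∃ r : ℝ, r = ‖u‖ := ⟨_, rfl⟩
  rw [← hr] at hue
  have hp2 : (2 : ℝ) ≤ p := by exact_mod_cast hp.two_le
  have hr0 : 0 ≤ r := by rw [hr]; exact norm_nonneg _
  have hrep : (p : ℝ) ≤ r ^ e := by
    have h1 : (p : ℝ) * (μ * p) ≤ p * 1 := by gcongr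
    by_contra hlt
    push Not at hlt
    have h2 : μ * r ^ e < μ * p := by gcongr
    linarith
  have hr1 : 1 < r := by
    by_contra hle
    push Not at hle
    have := pow_le_one₀ hr0 hle (n := e)
    linarith
  have hrm : (p : ℝ) < r ^ m := by
    have h1 : ((p : ℝ)) ^ e < (r ^ m) ^ e := by
      rw [← pow_mul, mul_comm m e, pow_mul]
      calc (p : ℝ) ^ e < (p : ℝ) ^ m := pow_lt_pow_right₀ (by linarith) (by omega)
        _ ≤ (r ^ e) ^ m := by gcongr
    exact lt_of_pow_lt_pow_left₀ e (by positivity) h1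
  -- the field
  let K : IntermediateField ℚ_[p] (PadicAlgCl p) := IntermediateField.adjoin ℚ_[p] {u}
  have huint : IsIntegral ℚ_[p] u := Algebra.IsIntegral.isIntegral u
  have hfd : FiniteDimensional ℚ_[p] K := IntermediateField.adjoin.finiteDimensional huint
  refine ⟨K, hfd, ?_, fun n hn => ?_⟩
  · rw [IntermediateField.adjoin.finrank huint, ← hHdeg]
    apply natDegree_le_of_dvd
    · apply minpoly.dvd
      rw [← eval_map_algebraMap]
      exact huroot
    · exact hH0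
  · have huK : u ∈ K := IntermediateField.mem_adjoin_simple_self _ _
    have hcomplK : CompleteSpace K := by
      have h1 : IsComplete ((Subalgebra.toSubmodule K.toSubalgebra : Submodule ℚ_[p] _) :
          Set (PadicAlgCl p)) := by
        have : FiniteDimensional ℚ_[p]
          (Subalgebra.toSubmodule K.toSubalgebra : Submodule ℚ_[p] (PadicAlgCl p)) := hfd
        exact Submodule.complete_of_finiteDimensional _
      exact h1.completeSpace_coe
    have hultra : IsUltrametricDist K := ⟨fun x y z =>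
      IsUltrametricDist.dist_triangle_max (x : PadicAlgCl p) y z⟩
    have hval : ∀ z : K, ((z : K) : PadicAlgCl p) = algebraMap K (PadicAlgCl p) z := fun z => rfl
    obtain ⟨hder, -⟩ := hBERN K d m hm0 (by omega)
    have hnat : ∀ k : ℕ, ‖(k : K)‖ = ‖(k : ℚ_[p])‖ := by
      intro k
      have h1 : ‖(k : K)‖ = ‖((k : K) : PadicAlgCl p)‖ := rfl
      rw [h1, ← hnU]
      simp
    have hevU : ∀ z : K, ((bern K d m).eval z : K) = ((bern (PadicAlgCl p) d m).eval
        (z : PadicAlgCl p)) := by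
      intro z
      rw [hval, hval, ← bern_map (algebraMap K (PadicAlgCl p)) d m, eval_map,
        eval₂_hom]
    have hroot : (bern K d m).eval (⟨u, huK⟩ : K) = 0 := by
      apply Subtype.ext
      rw [hevU]
      show (bern (PadicAlgCl p) d m).eval u = 0
      rw [← bern_map (algebraMap ℚ_[p] (PadicAlgCl p)) d m, hH, Polynomial.map_mul, eval_mul]
      rw [show (H.map (algebraMap ℚ_[p] (PadicAlgCl p))).eval u = 0 from huroot, mul_zero]
    obtain ⟨v, hv1, hv2, hv3⟩ := dyn (F := K) (bern K d m) ((m * d.choose m : ℕ) : K) ⟨u, huK⟩ m e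
      r p hm0 hroot (by rw [hder, hde]; simp) (fun k hk => by
        rw [hnat]; exact one_le_nat_norm p k hk) hr.symm hr1 hp2 (by
        rw [hnat]
        push_cast
        rw [norm_mul, hchoose, mul_one, ← hμ, pow_add]
        calc (p : ℝ) < r ^ m := hrm
          _ ≤ (μ * r ^ e) * r ^ m := le_mul_of_one_le_left (by positivity) hue
          _ = μ * (r ^ m * r ^ e) := by ring) n
    have hiter : ∀ i : ℕ, (((fun z : K => v * (bern K d m).eval z)^[i] v : K) : PadicAlgCl p) =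
        (fun z => (fam2 (PadicAlgCl p) d m v).eval z)^[i] v := by
      intro i
      induction i with
      | zero => rfl
      | succ i ih =>
        rw [Function.iterate_succ_apply', Function.iterate_succ_apply', ← ih]
        unfold fam2
        rw [eval_mul, eval_C, ← hevU]
        rfl
    refine ⟨v, v.2, hv1, ?_, fun i hi => ?_⟩
    · rw [← hiter, hv2]
      rfl
    · rw [← hiter]
      intro h0
      exact hv3 i hi (Subtype.ext h0)

end Pool.Agent.Y309.TP
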