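import Pool.Agent.Y19.TP.Stm3

set_option autoImplicit false

/-! # `p`-adic dynamics of `v z^(d-1) (d - (d-1) z)` -/

namespace Pool.Agent.Y309.TP

open Polynomial Function Pool.Agent.Y19.TP

variable {p : ℕ} [Fact p.Prime]

private theorem na (x y : ℚ_[p]) (B : ℝ) (hx : ‖x‖ ≤ B) (hy : ‖y‖ ≤ B) : ‖x + y‖ ≤ B :=
  (IsUltrametricDist.norm_add_le_max x y).trans (max_le hx hy)

private theorem pow_sub_le (R : ℝ) (hR : 0 ≤ R) (z z' : ℚ_[p]) (hz : ‖z‖ = R) (hz' : ‖z'‖ = R)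
    (m : ℕ) : ‖z ^ (m + 1) - z' ^ (m + 1)‖ ≤ R ^ m * ‖z - z'‖ := by
  induction m with
  | zero => simp
  | succ m ih =>
    have e : z ^ (m + 1 + 1) - z' ^ (m + 1 + 1) =
        z * (z ^ (m + 1) - z' ^ (m + 1)) + (z - z') * z' ^ (m + 1) := by ring
    rw [e]
    refine na _ _ _ ?_ ?_
    · rw [norm_mul, hz]
      calc R * ‖z ^ (m + 1) - z' ^ (m + 1)‖ ≤ R * (R ^ m * ‖z - z'‖) :=
            mul_le_mul_of_nonneg_left ih hR
        _ = R ^ (m + 1) * ‖z - z'‖ := by ring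
    · rw [norm_mul, norm_pow, hz', mul_comm]

private noncomputable def Th (u dd : ℚ_[p]) (m : ℕ) (a b c : ℚ_[p]) : ℚ_[p] :=
  u * (1 - b / (a * (dd * c ^ (m + 1))))

private theorem Th_sub (u dd : ℚ_[p]) (m : ℕ) (R : ℝ) (hR : 0 < R) (hu : ‖u‖ = R)
    (hdd : ‖dd‖ = 1) (a b c : ℚ_[p]) (ha : ‖a‖ = R) (hb : ‖b‖ = R) (hc : ‖c‖ = R) :
    ‖Th u dd m a b c - u‖ = (R ^ m)⁻¹ := by
  have e : Th u dd m a b c - u = -(u * (b / (a * (dd * c ^ (m + 1))))) := by
    unfold Th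
    ring
  rw [e, norm_neg, norm_mul, norm_div, norm_mul, norm_mul, norm_pow, hu, hdd, ha, hb, hc]
  field_simp
  ring

private theorem Th_lip (u dd : ℚ_[p]) (m : ℕ) (R : ℝ) (hR : 0 < R) (hu : ‖u‖ = R)
    (hdd : ‖dd‖ = 1) (a b c a' b' c' : ℚ_[p]) (ha : ‖a‖ = R) (hb' : ‖b'‖ = R)
    (hc : ‖c‖ = R) (ha' : ‖a'‖ = R) (hc' : ‖c'‖ = R) (B : ℝ)
    (h1 : ‖a - a'‖ ≤ B) (h2 : ‖b - b'‖ ≤ B) (h3 : ‖c - c'‖ ≤ B) :
    ‖Th u dd m a b c - Th u dd m a' b' c'‖ ≤ (R ^ (m + 1))⁻¹ * B := by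
  have hne : ∀ x : ℚ_[p], ‖x‖ = R → x ≠ 0 := by
    intro x hx h0
    rw [h0, norm_zero] at hx
    linarith
  have ha0 := hne a ha
  have ha0' := hne a' ha'
  have hc0 := hne c hc
  have hc0' := hne c' hc'
  have hdd0 : dd ≠ 0 := by
    intro h0
    rw [h0, norm_zero] at hdd
    exact zero_ne_one hdd
  obtain ⟨E, hE⟩ : ∃ E : ℚ_[p], E = dd * c ^ (m + 1) := ⟨_, rfl⟩
  obtain ⟨E', hE'⟩ : ∃ E' : ℚ_[p], E' = dd * c' ^ (m + 1) := ⟨_, rfl⟩
  have hE0 : E ≠ 0 := by rw [hE]; exact mul_ne_zero hdd0 (pow_ne_zero _ hc0)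
  have hE0' : E' ≠ 0 := by rw [hE']; exact mul_ne_zero hdd0 (pow_ne_zero _ hc0')
  have hEn : ‖E‖ = R ^ (m + 1) := by rw [hE, norm_mul, norm_pow, hdd, hc, one_mul]
  have hEn' : ‖E'‖ = R ^ (m + 1) := by rw [hE', norm_mul, norm_pow, hdd, hc', one_mul]
  have hEE : ‖E' - E‖ ≤ R ^ m * B := by
    have e : E' - E = dd * (c' ^ (m + 1) - c ^ (m + 1)) := by rw [hE, hE']; ring
    rw [e, norm_mul, hdd, one_mul]
    refine (pow_sub_le R hR.le c' c hc' hc m).trans ?_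
    rw [norm_sub_rev]
    exact mul_le_mul_of_nonneg_left h3 (by positivity)
  have hB : 0 ≤ B := (norm_nonneg _).trans h1
  have hN : ‖(b - b') * a' * E' + b' * (a' - a) * E' + b' * a * (E' - E)‖ ≤ R ^ (m + 2) * B := by
    refine na _ _ _ (na _ _ _ ?_ ?_) ?_
    · rw [norm_mul, norm_mul, ha', hEn']
      calc ‖b - b'‖ * R * R ^ (m + 1) ≤ B * R * R ^ (m + 1) := by gcongr
        _ = R ^ (m + 2) * B := by ring
    · rw [norm_mul, norm_mul, hb', hEn', norm_sub_rev]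
      calc R * ‖a - a'‖ * R ^ (m + 1) ≤ R * B * R ^ (m + 1) := by gcongr
        _ = R ^ (m + 2) * B := by ring
    · rw [norm_mul, norm_mul, hb', ha]
      calc R * R * ‖E' - E‖ ≤ R * R * (R ^ m * B) := by gcongr
        _ = R ^ (m + 2) * B := by ring
  have e : Th u dd m a b c - Th u dd m a' b' c' =
      -(u * ((b - b') * a' * E' + b' * (a' - a) * E' + b' * a * (E' - E)) /
        (a * a' * E * E')) := by
    unfold Th
    rw [← hE, ← hE']
    field_simp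
    ring
  rw [e, norm_neg, norm_div, norm_mul, hu, norm_mul, norm_mul, norm_mul, ha, ha', hEn, hEn',
    div_le_iff₀ (by positivity)]
  calc R * ‖(b - b') * a' * E' + b' * (a' - a) * E' + b' * a * (E' - E)‖
      ≤ R * (R ^ (m + 2) * B) := by gcongr
    _ = (R ^ (m + 1))⁻¹ * B * (R * R * R ^ (m + 1) * R ^ (m + 1)) := by
        field_simp
        ring

theorem t_INFB : INFB := by
  intro p _ d hd hpd n hn
  obtain ⟨m, rfl⟩ : ∃ m, d = m + 2 := ⟨d - 2, by omega⟩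
  have hm : 1 ≤ m := by omega
  have hpd' : p ∣ m + 1 := hpd
  obtain ⟨e, he⟩ : ∃ e : ℚ_[p], e = ((m + 1 : ℕ) : ℚ_[p]) := ⟨_, rfl⟩
  obtain ⟨dd, hdd⟩ : ∃ dd : ℚ_[p], dd = ((m + 2 : ℕ) : ℚ_[p]) := ⟨_, rfl⟩
  have hde : dd = e + 1 := by rw [hdd, he]; push_cast; ring
  have he1 : ‖e‖ < 1 := by
    rw [he]
    exact (Padic.norm_natCast_lt_one_iff).2 hpd'
  have he0 : e ≠ 0 := by
    rw [he]
    exact_mod_cast (by omega : m + 1 ≠ 0)
  have hen : 0 < ‖e‖ := norm_pos_iff.2 he0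
  have hdd1 : ‖dd‖ = 1 := by
    rw [hde, IsUltrametricDist.norm_add_eq_max_of_norm_ne_norm (by rw [norm_one]; exact he1.ne),
      norm_one]
    exact max_eq_right he1.le
  have hdd0 : dd ≠ 0 := by
    intro h0
    rw [h0, norm_zero] at hdd1
    exact zero_ne_one hdd1
  obtain ⟨R, hRd⟩ : ∃ R : ℝ, R = ‖e‖⁻¹ := ⟨_, rfl⟩
  have hR1 : 1 < R := by rw [hRd]; exact (one_lt_inv₀ hen).2 he1
  have hR0 : 0 < R := by linarith
  obtain ⟨u, hu⟩ : ∃ u : ℚ_[p], u = dd / e := ⟨_, rfl⟩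
  have hun : ‖u‖ = R := by rw [hu, norm_div, hdd1, hRd, one_div]
  have hu0 : u ≠ 0 := by rw [hu]; exact div_ne_zero hdd0 he0
  obtain ⟨r, hr⟩ : ∃ r : ℝ, r = (R ^ m)⁻¹ := ⟨_, rfl⟩
  have hr0 : 0 ≤ r := by rw [hr]; positivity
  have hr1 : r < R := by
    have h1 : r ≤ 1 := by
      rw [hr]
      exact inv_le_one_of_one_le₀ (one_le_pow₀ hR1.le)
    linarith
  have hnormD : ∀ z ∈ Metric.closedBall u r, ‖z‖ = R := by
    intro z hz
    rw [mem_closedBall_iff_norm] at hz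
    have h1 : z = u + (z - u) := by ring
    have h2 : ‖u‖ ≠ ‖z - u‖ := by rw [hun]; exact (hz.trans_lt hr1).ne'
    rw [h1, IsUltrametricDist.norm_add_eq_max_of_norm_ne_norm h2, hun]
    exact max_eq_left (hz.trans hr1.le)
  -- the fixed point
  have hcompl : CompleteSpace (Metric.closedBall u r) :=
    Metric.isClosed_closedBall.completeSpace_coe
  have huD : u ∈ Metric.closedBall u r := Metric.mem_closedBall_self hr0
  have hne : Nonempty (Fin n → Metric.closedBall u r) := ⟨fun _ => ⟨u, huD⟩⟩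
  let ext : (Fin n → Metric.closedBall u r) → ℕ → ℚ_[p] :=
    fun z i => if h : i < n then (z ⟨i, h⟩ : ℚ_[p]) else u
  have hextD : ∀ z i, ext z i ∈ Metric.closedBall u r := by
    intro z i
    by_cases h : i < n
    · simp only [ext, dif_pos h]
      exact (z ⟨i, h⟩).2
    · simp only [ext, dif_neg h]
      exact huD
  have hextn : ∀ z i, ‖ext z i‖ = R := fun z i => hnormD _ (hextD z i)
  have hextd : ∀ z z' i, ‖ext z i - ext z' i‖ ≤ dist z z' := by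
    intro z z' i
    by_cases h : i < n
    · simp only [ext, dif_pos h]
      have h1 := dist_le_pi_dist z z' ⟨i, h⟩
      rw [Subtype.dist_eq, dist_eq_norm] at h1
      exact h1
    · simp only [ext, dif_neg h, sub_self, norm_zero]
      exact dist_nonneg
  have hmem : ∀ z (i : ℕ), Th u dd m (ext z 0) (ext z (i + 1)) (ext z i) ∈
      Metric.closedBall u r := by
    intro z i
    rw [mem_closedBall_iff_norm, Th_sub u dd m R hR0 hun hdd1 _ _ _ (hextn z 0) (hextn z _)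
      (hextn z _), hr]
  let Ψ : (Fin n → Metric.closedBall u r) → (Fin n → Metric.closedBall u r) :=
    fun z i => ⟨Th u dd m (ext z 0) (ext z (i + 1)) (ext z i), hmem z i⟩
  have hK : (R ^ (m + 1))⁻¹ < 1 := inv_lt_one_of_one_lt₀ (one_lt_pow₀ hR1 (by omega))
  have hKn : 0 ≤ (R ^ (m + 1))⁻¹ := by positivity
  have hcontr : ContractingWith ⟨(R ^ (m + 1))⁻¹, hKn⟩ Ψ := by
    refine ⟨?_, LipschitzWith.of_dist_le_mul fun z z' => ?_⟩
    · exact_mod_cast hK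
    · rw [dist_pi_le_iff (by positivity)]
      intro i
      rw [Subtype.dist_eq, dist_eq_norm]
      exact Th_lip u dd m R hR0 hun hdd1 _ _ _ _ _ _ (hextn z 0) (hextn z' _) (hextn z _)
        (hextn z' 0) (hextn z' _) _ (hextd z z' 0) (hextd z z' _) (hextd z z' _)
  obtain ⟨z, hz⟩ : ∃ z, Ψ z = z := ⟨_, hcontr.fixedPoint_isFixedPt⟩
  obtain ⟨v, hv⟩ : ∃ v : ℚ_[p], v = ext z 0 := ⟨_, rfl⟩
  have hvn : ‖v‖ = R := by rw [hv]; exact hextn z 0
  have hne0 : ∀ x : ℚ_[p], ‖x‖ = R → x ≠ 0 := by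
    intro x hx h0
    rw [h0, norm_zero] at hx
    linarith
  have hfam : ∀ y : ℚ_[p], (fam ℚ_[p] (m + 2) v).eval y = v * y ^ (m + 1) * (dd - e * y) := by
    intro y
    unfold fam
    have h1 : m + 2 - 1 = m + 1 := rfl
    rw [h1, hdd, he]
    simp only [eval_mul, eval_C, eval_pow, eval_X, eval_sub]
    push_cast
    ring
  have hstep : ∀ i, i < n → (fam ℚ_[p] (m + 2) v).eval (ext z i) = ext z (i + 1) := by
    intro i hi
    have h1 : ((Ψ z) ⟨i, hi⟩ : ℚ_[p]) = (z ⟨i, hi⟩ : ℚ_[p]) := by rw [hz]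
    have h2 : (z ⟨i, hi⟩ : ℚ_[p]) = ext z i := by simp only [ext, dif_pos hi]
    have h3 : Th u dd m (ext z 0) (ext z (i + 1)) (ext z i) = ext z i := h1.trans h2
    rw [hfam]
    rw [← hv] at h3
    have hv0 := hne0 v hvn
    have hx0 := hne0 _ (hextn z i)
    generalize ext z i = x at h3 hx0 ⊢
    generalize ext z (i + 1) = y at h3 ⊢
    unfold Th at h3
    have h4 : y / (v * (dd * x ^ (m + 1))) = 1 - x / u := by
      rw [eq_sub_iff_add_eq, ← eq_sub_iff_add_eq']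
      rw [div_eq_iff hu0]
      rw [← h3]
      conv_rhs => rw [h3]
      rw [mul_comm]
    have h5 : v * (dd * x ^ (m + 1)) ≠ 0 := mul_ne_zero hv0 (mul_ne_zero hdd0 (pow_ne_zero _ hx0))
    rw [div_eq_iff h5] at h4
    rw [h4, hu]
    field_simp
  have hiter : ∀ i, i ≤ n → (fun z : ℚ_[p] => (fam ℚ_[p] (m + 2) v).eval z)^[i] v = ext z i := by
    intro i
    induction i with
    | zero => intro _; exact hv
    | succ i ih =>
      intro hi
      rw [Function.iterate_succ_apply', ih (by omega)]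
      exact hstep i (by omega)
  refine ⟨v, by rw [hvn]; exact hR1, ?_, ?_⟩
  · rw [Function.iterate_succ_apply', hiter n le_rfl]
    have h1 : ext z n = u := by simp only [ext, dif_neg (lt_irrefl n)]
    rw [h1]
    show (fam ℚ_[p] (m + 2) v).eval u = 0
    rw [hfam, hu]
    field_simp
    ring
  · intro i hi
    rw [hiter i hi]
    exact hne0 _ (hextn z i)

end Pool.Agent.Y309.TP
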